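import Mathlib

open Filter Topology

namespace Pool.Agent.H817Z.BS

variable {n : Type} [Fintype n] [DecidableEq n]

lemma eval_rev {K : Type} [CommRing K] (f : ℝ →+* K) (z : K) (M : Matrix n n ℝ) :
    Polynomial.eval₂ f z M.charpolyRev = (1 - z • M.map f).det := by
  have h := RingHom.map_det (Polynomial.eval₂RingHom f z) (1 - (Polynomial.X : Polynomial ℝ) • M.map Polynomial.C)
  rw [Matrix.charpolyRev]
  refine h.trans ?_
  congr 1
  ext i j
  by_cases hij : i = j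
  · subst hij; simp; ring
  · simp [hij]; ring

lemma gelf {A : Type} [NormedRing A] [NormedAlgebra ℂ A] [CompleteSpace A] [Nontrivial A] (a : A)
    (h : ∀ z ∈ spectrum ℂ a, ‖z‖ < 1) : Summable fun k : ℕ => ‖a ^ k‖ := by
  have h1 : spectralRadius ℂ a < (1 : NNReal) :=
    spectrum.spectralRadius_lt_of_forall_lt a (fun z hz => by exact_mod_cast h z hz)
  obtain ⟨r, hr1, hr2⟩ := ENNReal.lt_iff_exists_nnreal_btwn.1 h1
  have hr2' : (r : ℝ) < 1 := by exact_mod_cast hr2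
  have h2 := (spectrum.pow_norm_pow_one_div_tendsto_nhds_spectralRadius a).eventually
    (gt_mem_nhds hr1)
  refine Summable.of_norm_bounded_eventually_nat (summable_geometric_of_lt_one r.2 hr2') ?_
  filter_upwards [h2, eventually_gt_atTop 0] with k hk hk0
  rw [norm_norm]
  have h3 : ‖a ^ k‖ ^ (1 / k : ℝ) < r := by
    rw [← ENNReal.ofReal_coe_nnreal] at hk
    exact (ENNReal.ofReal_lt_ofReal_iff_of_nonneg (by positivity)).1 hk
  have h4 : (‖a ^ k‖ ^ (1 / k : ℝ)) ^ k ≤ (r : ℝ) ^ k := by gcongr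
  rwa [one_div, Real.rpow_inv_natCast_pow (norm_nonneg _) hk0.ne'] at h4

lemma map_pow_c (M : Matrix n n ℝ) (k : ℕ) :
    (M.map Complex.ofRealHom) ^ k = (M ^ k).map Complex.ofRealHom := by
  have := map_pow (Complex.ofRealHom.mapMatrix (m := n)) M k
  simpa using this.symm

open scoped Matrix.Norms.Operator in
lemma summ_of_eig [Nonempty n] (N : Matrix n n ℝ) (ρ : ℝ) (hρ : 0 < ρ)
    (h : ∀ z : ℂ, (1 - z • N.map Complex.ofRealHom).det = 0 → ρ < ‖z‖) (a b : n) :
    Summable fun k : ℕ => |(N ^ k) a b| * ρ ^ k := by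
  have : CompleteSpace (Matrix n n ℂ) := FiniteDimensional.complete ℂ _
  have h1 := gelf ((ρ : ℂ) • N.map Complex.ofRealHom) (by
    intro μ hμ
    by_cases h0 : μ = 0
    · simp [h0]
    rw [spectrum.mem_iff, Matrix.isUnit_iff_isUnit_det, isUnit_iff_ne_zero, not_not] at hμ
    have h2 : algebraMap ℂ (Matrix n n ℂ) μ - (ρ : ℂ) • N.map Complex.ofRealHom =
        μ • (1 - (ρ / μ : ℂ) • N.map Complex.ofRealHom) := by
      rw [Algebra.algebraMap_eq_smul_one, smul_sub, smul_smul, mul_div_cancel₀ _ h0]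
    rw [h2, Matrix.det_smul, mul_eq_zero] at hμ
    have h3 := h _ (hμ.resolve_left (pow_ne_zero _ h0))
    rw [norm_div, Complex.norm_real, Real.norm_of_nonneg hρ.le,
      lt_div_iff₀ (norm_pos_iff.2 h0)] at h3
    nlinarith)
  refine Summable.of_nonneg_of_le (fun k => by positivity) (fun k => ?_) h1
  have h4 : ∀ X : Matrix n n ℂ, ‖X a b‖ ≤ ‖X‖ := by
    intro X
    have h5 : ‖X a b‖₊ ≤ ‖X‖₊ := by
      rw [Matrix.linfty_opNNNorm_def]
      refine le_trans ?_ (Finset.le_sup (f := fun i => ∑ j, ‖X i j‖₊) (Finset.mem_univ a))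
      exact Finset.single_le_sum (f := fun j => ‖X a j‖₊) (fun _ _ => zero_le) (Finset.mem_univ b)
    exact_mod_cast h5
  refine le_trans (le_of_eq ?_) (h4 _)
  rw [smul_pow, map_pow_c]
  simp [abs_of_pos hρ, mul_comm]

lemma eig_of_summ (M : Matrix n n ℝ) (ρ : ℝ)
    (h : ∀ a b, Summable fun k : ℕ => |(M ^ k) a b| * ρ ^ k) (z : ℂ)
    (hz : (1 - z • M.map Complex.ofRealHom).det = 0) : ρ < ‖z‖ := by
  by_contra hle
  push Not at hle
  obtain ⟨v, hv0, hv⟩ := Matrix.exists_mulVec_eq_zero_iff.2 hz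
  have h1 : (z • M.map Complex.ofRealHom).mulVec v = v := by
    rw [Matrix.sub_mulVec, Matrix.one_mulVec, sub_eq_zero] at hv
    exact hv.symm
  have h2 : ∀ k : ℕ, ((z • M.map Complex.ofRealHom) ^ k).mulVec v = v := by
    intro k
    induction k with
    | zero => simp
    | succ k ih => rw [pow_succ, ← Matrix.mulVec_mulVec, h1, ih]
  apply hv0
  funext i
  have h3 : ∀ k : ℕ, ‖v i‖ ≤ ∑ j, |(M ^ k) i j| * ρ ^ k * ‖v j‖ := by
    intro k
    have h4 := congrFun (h2 k) i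
    rw [smul_pow, map_pow_c] at h4
    rw [← h4, Matrix.mulVec, dotProduct]
    refine (norm_sum_le _ _).trans (Finset.sum_le_sum fun j _ => ?_)
    simp only [Matrix.smul_apply, Matrix.map_apply, Complex.ofRealHom_eq_coe, smul_eq_mul, norm_mul,
      norm_pow, Complex.norm_real, Real.norm_eq_abs]
    rw [mul_comm (‖z‖ ^ k)]
    gcongr
  have h5 : Tendsto (fun k : ℕ => ∑ j, |(M ^ k) i j| * ρ ^ k * ‖v j‖) atTop (𝓝 0) := by
    have : Tendsto (fun k : ℕ => ∑ j, |(M ^ k) i j| * ρ ^ k * ‖v j‖) atTop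
        (𝓝 (∑ j : n, 0 * ‖v j‖)) :=
      tendsto_finsetSum _ fun j _ => ((h i j).tendsto_atTop_zero).mul_const _
    simpa using this
  have h6 : ‖v i‖ ≤ 0 := ge_of_tendsto' h5 h3
  simpa using h6

lemma trace_pow_add (P Q : Matrix n n ℝ) (h : P * Q = 0) (k : ℕ) (hk : 0 < k) :
    ((P + Q) ^ k).trace = (P ^ k).trace + (Q ^ k).trace := by
  have key : ∀ m : ℕ, ∃ Y : Matrix n n ℝ, (P + Q) ^ (m + 1) = P ^ (m + 1) + Q ^ (m + 1) + Q * Y * P := by
    intro m
    induction m with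
    | zero => exact ⟨0, by simp⟩
    | succ m ih =>
      obtain ⟨Y, hY⟩ := ih
      refine ⟨Q ^ m + Y * P, ?_⟩
      have e1 : P ^ (m + 1) * Q = 0 := by rw [pow_succ, mul_assoc, h, mul_zero]
      have e2 : Q * Y * P * Q = 0 := by rw [mul_assoc, h, mul_zero]
      rw [pow_succ (P + Q), hY, mul_add, add_mul, add_mul, add_mul, add_mul, e1, e2,
        ← pow_succ, ← pow_succ, pow_succ' Q m]
      noncomm_ring
  obtain ⟨m, rfl⟩ : ∃ m, k = m + 1 := ⟨k - 1, by omega⟩
  obtain ⟨Y, hY⟩ := key m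
  rw [hY, Matrix.trace_add, Matrix.trace_add, Matrix.trace_mul_comm (Q * Y) P, ← mul_assoc, h]
  simp

lemma trace_pow_idem (Q : Matrix n n ℝ) (lam : ℝ) (h : Q * Q = lam • Q) (ht : Q.trace = lam)
    (k : ℕ) (hk : 0 < k) : (Q ^ k).trace = lam ^ k := by
  have key : ∀ m : ℕ, Q ^ (m + 1) = lam ^ m • Q := by
    intro m
    induction m with
    | zero => simp
    | succ m ih => rw [pow_succ, ih, smul_mul_assoc, h, smul_smul, pow_succ]
  obtain ⟨m, rfl⟩ : ∃ m, k = m + 1 := ⟨k - 1, by omega⟩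
  rw [key, Matrix.trace_smul, ht, smul_eq_mul, pow_succ]

end Pool.Agent.H817Z.BS
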