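import Pool.Agent.H817Z.BS1
import Pool.Agent.H123Z.GSC.Defs

namespace Pool.Agent.H817Z.BS

open Pool.Agent.H123Z.GSC

variable {ι G : Type} [Fintype ι] [DecidableEq ι] [Group G] [Fintype G]

open Classical in
lemma coeff_one' (g : G) : (1 : MonoidAlgebra ℝ G).coeff g = if g = 1 then 1 else 0 := by
  rw [MonoidAlgebra.one_def, MonoidAlgebra.coeff_single, Finsupp.single_apply]
  by_cases h : g = 1
  · simp [h]
  · simp [h, Ne.symm h]

/-- augmentation -/
noncomputable def eps (G : Type) [Group G] [Fintype G] : MonoidAlgebra ℝ G →+* ℝ where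
  toFun x := ∑ g, x.coeff g
  map_one' := by classical simp [coeff_one']
  map_mul' x y := by
    simp only [coeff_mul_sum]
    rw [Finset.sum_comm, Finset.sum_mul]
    refine Finset.sum_congr rfl fun h _ => ?_
    rw [← Finset.mul_sum]
    congr 1
    exact Fintype.sum_equiv (Equiv.mulLeft h⁻¹) _ _ (fun g => rfl)
  map_zero' := by simp
  map_add' x y := by simp [Finset.sum_add_distrib]

lemma aug_eq (X : MZ ι G) : aug X = (eps G).mapMatrix (toR X) := by
  ext i j
  simp [aug, eps, toR_coeff]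

lemma aug_pow (X : MZ ι G) (k : ℕ) : (aug X) ^ k = aug (X ^ k) := by
  rw [aug_eq, aug_eq, map_pow, map_pow]

lemma coeff_trace {R : Type} [CommRing R] (X : Matrix ι ι (MonoidAlgebra R G)) (g : G) :
    (Matrix.trace X).coeff g = ∑ i, (X i i).coeff g := by
  simp [Matrix.trace]

lemma trace_aug (X : MZ ι G) :
    (aug X).trace = ((∑ g, (Matrix.trace X).coeff g : ℤ) : ℝ) := by
  simp only [coeff_trace]
  push_cast
  rw [Finset.sum_comm]
  rfl

open Classical in
/-- regular representation -/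
noncomputable def reg (ι G : Type) [Fintype ι] [DecidableEq ι] [Group G] [Fintype G] :
    MA ι G →+* Matrix (ι × G) (ι × G) ℝ where
  toFun X := fun a b => (X a.1 b.1).coeff (a.2 * b.2⁻¹)
  map_one' := by
    ext ⟨i, g⟩ ⟨j, h⟩
    by_cases hij : i = j
    · subst hij
      simp [Matrix.one_apply, coeff_one', mul_inv_eq_one]
    · simp [Matrix.one_apply, hij]
  map_mul' X Y := by
    ext ⟨i, g⟩ ⟨j, h⟩
    simp only [Matrix.mul_apply, Fintype.sum_prod_type]
    rw [show (∑ l, X i l * Y l j).coeff (g * h⁻¹) = ∑ l, (X i l * Y l j).coeff (g * h⁻¹) by simp]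
    refine Finset.sum_congr rfl fun l _ => ?_
    rw [coeff_mul_sum]
    refine (Fintype.sum_equiv ((Equiv.inv G).trans (Equiv.mulLeft g)) _ _ (fun m => ?_)).symm
    simp [mul_assoc]
  map_zero' := by ext; simp
  map_add' X Y := by ext; simp

lemma reg_apply (X : MA ι G) (a b : ι × G) : reg ι G X a b = (X a.1 b.1).coeff (a.2 * b.2⁻¹) := rfl

lemma trace_reg (X : MZ ι G) :
    (reg ι G (toR X)).trace = Fintype.card G * (((Matrix.trace X).coeff 1 : ℤ) : ℝ) := by
  simp only [Matrix.trace, Matrix.diag, reg_apply, Fintype.sum_prod_type, mul_inv_cancel, toR_coeff]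
  simp [Finset.mul_sum]

lemma ebar_coeff (g : G) : (ebar G).coeff g = (Fintype.card G : ℝ)⁻¹ := by
  classical
  simp [ebar, MonoidAlgebra.coeff_single, Finsupp.single_apply]

lemma reg_colV (o : ι) (lam : ℝ) (v : ι → ℝ) (a b : ι × G) :
    reg ι G (colV G o lam v) a b = if b.1 = o then lam * v a.1 * (Fintype.card G : ℝ)⁻¹ else 0 := by
  rw [reg_apply, colV]
  split_ifs
  · simp [ebar_coeff]
  · simp

lemma card_ne : (Fintype.card G : ℝ) ≠ 0 := by
  have : Nonempty G := ⟨1⟩
  exact_mod_cast Fintype.card_ne_zero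

open Classical in
lemma trace_cut (A : MZ ι G) (o : ι) (lam : ℝ) (v : ι → ℝ) (hv : v o = 1)
    (hAv : (aug A).mulVec v = lam • v) (k : ℕ) (hk : 0 < k) :
    ((reg ι G (toR A - colV G o lam v)) ^ k).trace =
      Fintype.card G * (((Matrix.trace (A ^ k)).coeff 1 : ℤ) : ℝ) - lam ^ k := by
  set W := reg ι G (colV G o lam v) with hW
  have hc := card_ne (G := G)
  have h1 : reg ι G (toR A) * W = lam • W := by
    ext ⟨i, g⟩ ⟨j, h⟩
    simp only [Matrix.mul_apply, Fintype.sum_prod_type, hW, reg_colV, Matrix.smul_apply, smul_eq_mul]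
    split_ifs with hj
    · have h2 := congrFun hAv i
      simp only [Matrix.mulVec, dotProduct, Pi.smul_apply, smul_eq_mul] at h2
      have h3 : ∀ l, ∑ m : G, reg ι G (toR A) (i, g) (l, m) = aug A i l := by
        intro l
        simp only [reg_apply, toR_coeff, aug]
        exact Fintype.sum_equiv ((Equiv.inv G).trans (Equiv.mulLeft g)) _ _ (fun m => by simp)
      calc ∑ l, ∑ m : G, reg ι G (toR A) (i, g) (l, m) * (lam * v l * (Fintype.card G : ℝ)⁻¹)
          = ∑ l, lam * (Fintype.card G : ℝ)⁻¹ * (aug A i l * v l) := by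
            refine Finset.sum_congr rfl fun l _ => ?_
            rw [← Finset.sum_mul, h3]; ring
        _ = _ := by rw [← Finset.mul_sum, h2]; ring
    · simp
  have h2 : W * W = lam • W := by
    ext ⟨i, g⟩ ⟨j, h⟩
    simp only [Matrix.mul_apply, Fintype.sum_prod_type, hW, reg_colV, Matrix.smul_apply, smul_eq_mul]
    split_ifs with hj
    · rw [Finset.sum_eq_single o]
      · simp only [if_true, Finset.sum_const, Finset.card_univ, nsmul_eq_mul, hv]
        field_simp
      · intro l _ hl; simp [hl]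
      · simp
    · simp
  have h3 : W.trace = lam := by
    simp only [Matrix.trace, Matrix.diag, hW, reg_colV, Fintype.sum_prod_type]
    rw [Finset.sum_eq_single o]
    · simp only [if_true, Finset.sum_const, Finset.card_univ, nsmul_eq_mul, hv]
      field_simp
    · intro l _ hl; simp [hl]
    · simp
  have h4 : (reg ι G (toR A) - W) * W = 0 := by rw [sub_mul, h1, h2, sub_self]
  have h5 := trace_pow_add _ _ h4 k hk
  rw [sub_add_cancel, trace_pow_idem W lam h2 h3 k hk, ← map_pow, ← map_pow, trace_reg] at h5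
  rw [map_sub, ← hW, h5]
  ring

lemma reg_le (X : MA ι G) (a b : ι × G) : |reg ι G X a b| ≤ ‖X‖ := by
  rw [norm_def', reg_apply]
  calc |(X a.1 b.1).coeff (a.2 * b.2⁻¹)| ≤ ∑ g, |(X a.1 b.1).coeff g| :=
        Finset.single_le_sum (f := fun g => |(X a.1 b.1).coeff g|) (fun _ _ => abs_nonneg _)
          (Finset.mem_univ _)
    _ ≤ ∑ j, ∑ g, |(X a.1 j).coeff g| :=
        Finset.single_le_sum (f := fun j => ∑ g, |(X a.1 j).coeff g|)
          (fun _ _ => Finset.sum_nonneg fun _ _ => abs_nonneg _) (Finset.mem_univ _)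
    _ ≤ _ := Finset.single_le_sum (f := fun i => ∑ j, ∑ g, |(X i j).coeff g|)
          (fun _ _ => Finset.sum_nonneg fun _ _ => Finset.sum_nonneg fun _ _ => abs_nonneg _)
          (Finset.mem_univ _)

lemma norm_reg (X : MA ι G) : ‖X‖ = ∑ i, ∑ j, ∑ g, |reg ι G X (i, g) (j, 1)| := by
  simp [norm_def', reg_apply]

end Pool.Agent.H817Z.BS

namespace Pool.Agent.H123Z.GSC

theorem bside (hJ : JacobiR) {ι₁ ι₂ G : Type} [Fintype ι₁] [DecidableEq ι₁] [Fintype ι₂] [DecidableEq ι₂]
    [Group G] [Fintype G] (A : MZ ι₁ G) (B : MZ ι₂ G)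
    (h1 : ∀ k, 0 < k → (Matrix.trace (A ^ k)).coeff 1 = (Matrix.trace (B ^ k)).coeff 1)
    (h2 : ∀ k, 0 < k → ∑ g, (Matrix.trace (A ^ k)).coeff g = ∑ g, (Matrix.trace (B ^ k)).coeff g)
    (o : ι₁) (lam : ℝ) (hlam : lam ≠ 0) (v : ι₁ → ℝ) (hv : v o = 1)
    (hAv : (aug A).mulVec v = lam • v) (ρ : ℝ) (hρ : 0 < ρ)
    (hs : Summable fun k : ℕ => ‖(toR A - colV G o lam v) ^ k‖ * ρ ^ k) :
    ∃ (j : ι₂) (w : ι₂ → ℝ), w j = 1 ∧ (aug B).mulVec w = lam • w ∧
      Summable fun k : ℕ => ‖(toR B - colV G j lam w) ^ k‖ * ρ ^ k := by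
  classical
  open Pool.Agent.H817Z.BS in
  have e1 : (aug A).charpolyRev = (aug B).charpolyRev := hJ _ _ _ _ fun k hk => by
    rw [aug_pow, aug_pow, trace_aug, trace_aug, h2 k hk]
  open Pool.Agent.H817Z.BS in
  have d1 : (1 - lam⁻¹ • (aug B).map (RingHom.id ℝ)).det = 0 := by
    rw [← eval_rev, ← e1, eval_rev]
    refine Matrix.exists_mulVec_eq_zero_iff.1 ⟨v, fun h => ?_, ?_⟩
    · rw [h] at hv; simp at hv
    · have : (aug A).map (RingHom.id ℝ) = aug A := rfl
      rw [this, Matrix.sub_mulVec, Matrix.one_mulVec, Matrix.smul_mulVec, hAv, smul_smul,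
        inv_mul_cancel₀ hlam, one_smul, sub_self]
  obtain ⟨w0, hw0, hw⟩ := Matrix.exists_mulVec_eq_zero_iff.2 d1
  have hBw0 : (aug B).mulVec w0 = lam • w0 := by
    have : (aug B).map (RingHom.id ℝ) = aug B := rfl
    rw [this, Matrix.sub_mulVec, Matrix.one_mulVec, Matrix.smul_mulVec, sub_eq_zero] at hw
    conv_rhs => rw [hw, smul_smul, mul_inv_cancel₀ hlam, one_smul]
  obtain ⟨j, hj⟩ : ∃ j, w0 j ≠ 0 := by
    by_contra h
    push Not at h
    exact hw0 (funext h)
  have hwj : ((w0 j)⁻¹ • w0) j = 1 := by simp [hj]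
  have hBw : (aug B).mulVec ((w0 j)⁻¹ • w0) = lam • ((w0 j)⁻¹ • w0) := by
    rw [Matrix.mulVec_smul, hBw0, smul_comm]
  refine ⟨j, (w0 j)⁻¹ • w0, hwj, hBw, ?_⟩
  set w := (w0 j)⁻¹ • w0
  open Pool.Agent.H817Z.BS in
  have e2 : (reg ι₁ G (toR A - colV G o lam v)).charpolyRev =
      (reg ι₂ G (toR B - colV G j lam w)).charpolyRev := hJ _ _ _ _ fun k hk => by
    rw [trace_cut A o lam v hv hAv k hk, trace_cut B j lam w hwj hBw k hk, h1 k hk]
  open Pool.Agent.H817Z.BS in
  have s1 : ∀ a b, Summable fun k : ℕ =>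
      |((reg ι₁ G (toR A - colV G o lam v)) ^ k) a b| * ρ ^ k := fun a b =>
    Summable.of_nonneg_of_le (fun k => by positivity) (fun k => by
      rw [← map_pow]
      exact mul_le_mul_of_nonneg_right (reg_le _ a b) (by positivity)) hs
  haveI : Nonempty (ι₂ × G) := ⟨(j, 1)⟩
  open Pool.Agent.H817Z.BS in
  have s2 := summ_of_eig (reg ι₂ G (toR B - colV G j lam w)) ρ hρ (fun z hz => by
    rw [← eval_rev, ← e2, eval_rev] at hz
    exact eig_of_summ _ ρ s1 z hz)
  open Pool.Agent.H817Z.BS in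
  have s3 : Summable fun k : ℕ => ∑ i, ∑ l, ∑ g,
      |((reg ι₂ G (toR B - colV G j lam w)) ^ k) (i, g) (l, 1)| * ρ ^ k :=
    summable_sum fun i _ => summable_sum fun l _ => summable_sum fun g _ => s2 _ _
  refine s3.congr fun k => ?_
  rw [Pool.Agent.H817Z.BS.norm_reg, map_pow]
  simp only [Finset.sum_mul]

end Pool.Agent.H123Z.GSC
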