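import Mathlib

open Cardinal Set

namespace Pool.Agent.H817Z.HC

universe u

variable {V : Type u}

/-- reachability inside `S` -/
def Rch (R : V → V → Prop) (S : Set V) (a b : V) : Prop :=
  Relation.ReflTransGen (fun x y => x ∈ S ∧ y ∈ S ∧ R x y) a b

lemma Rch.refl (R : V → V → Prop) (S : Set V) (a : V) : Rch R S a a :=
  Relation.ReflTransGen.refl

lemma Rch.mono {R : V → V → Prop} {S T : Set V} (h : S ⊆ T) {a b : V} (hab : Rch R S a b) :
    Rch R T a b := by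
  induction hab with
  | refl => exact Relation.ReflTransGen.refl
  | tail _ hxy ih => exact Relation.ReflTransGen.tail ih ⟨h hxy.1, h hxy.2.1, hxy.2.2⟩

lemma Rch.trans {R : V → V → Prop} {S : Set V} {a b c : V} (h1 : Rch R S a b)
    (h2 : Rch R S b c) : Rch R S a c :=
  Relation.ReflTransGen.trans h1 h2

lemma Rch.single {R : V → V → Prop} {S : Set V} {a b : V} (ha : a ∈ S) (hb : b ∈ S)
    (h : R a b) : Rch R S a b :=
  Relation.ReflTransGen.single ⟨ha, hb, h⟩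

lemma Rch.finite {R : V → V → Prop} {S : Set V} {a b : V} (h : Rch R S a b) :
    ∃ T : Set V, T.Finite ∧ T ⊆ S ∧ Rch R T a b := by
  induction h with
  | refl => exact ⟨∅, finite_empty, empty_subset _, Rch.refl _ _ _⟩
  | @tail x y _ hxy ih =>
    obtain ⟨T, hT, hTS, hr⟩ := ih
    refine ⟨insert x (insert y T), (hT.insert y).insert x, ?_, ?_⟩
    · intro z hz
      rcases hz with rfl | rfl | hz
      · exact hxy.1
      · exact hxy.2.1
      · exact hTS hz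
    · refine Rch.trans (Rch.mono ?_ hr) (Rch.single ?_ ?_ hxy.2.2)
      · intro z hz; exact Or.inr (Or.inr hz)
      · exact Or.inl rfl
      · exact Or.inr (Or.inl rfl)

lemma ex_not_mem {c : Cardinal.{u}} {S T : Set V} (hS : c ≤ #S) (hT : #T < c) :
    ∃ x ∈ S, x ∉ T := by
  by_contra h
  push Not at h
  exact absurd (hS.trans (mk_le_mk_of_subset h)) (not_le.2 hT)

lemma union_lt {c : Cardinal.{u}} (hc : c.IsRegular) {S T : Set V} (hS : #S < c) (hT : #T < c) :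
    #(S ∪ T : Set V) < c :=
  (mk_union_le S T).trans_lt (add_lt_of_lt hc.aleph0_le hS hT)

lemma biUnion_lt {ι : Type u} {c : Cardinal.{u}} (hc : c.IsRegular) {I : Set ι} {f : ι → Set V}
    (hI : #I < c) (h : ∀ i ∈ I, #(f i) < c) : #(⋃ i ∈ I, f i : Set V) < c :=
  (card_biUnion_lt_iff_forall_of_isRegular (t := fun i _ => f i) hc hI).2 h

lemma sub_lt {c : Cardinal.{u}} {S T : Set V} (h : S ⊆ T) (hT : #T < c) : #S < c :=
  (mk_le_mk_of_subset h).trans_lt hT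

lemma le_sub {c : Cardinal.{u}} {S T : Set V} (h : S ⊆ T) (hS : c ≤ #S) : c ≤ #T :=
  hS.trans (mk_le_mk_of_subset h)

lemma fin_lt {c : Cardinal.{u}} (hc : c.IsRegular) {S : Set V} (hS : S.Finite) : #S < c :=
  (lt_aleph0_iff_set_finite.2 hS).trans_le hc.aleph0_le

lemma prod_lt {c : Cardinal.{u}} (hc : c.IsRegular) {S T : Set V} (hS : #S < c) (hT : #T < c) :
    #(S ×ˢ T : Set (V × V)) < c := by
  rw [mk_setProd]
  exact mul_lt_of_lt hc.aleph0_le hS hT

lemma exists_rec {I : Type u} {W : Type*} [Preorder I] [WellFoundedLT I]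
    (Φ : (i : I) → ((j : I) → j < i → W) → W) :
    ∃ f : I → W, ∀ i, f i = Φ i (fun j _ => f j) :=
  ⟨WellFounded.fix wellFounded_lt Φ, fun i => WellFounded.fix_eq _ _ i⟩

lemma Iic_lt {I : Type u} [LinearOrder I] {c : Cardinal.{u}} (hc : c.IsRegular)
    (hI : ∀ i : I, #(Iio i) < c) (i : I) : #(Iic i) < c := by
  rw [← Iio_union_right]
  exact union_lt hc (hI i) (fin_lt hc (finite_singleton i))

lemma bdd {I : Type u} [LinearOrder I] {c : Cardinal.{u}} (hc : c.IsRegular)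
    (hI : ∀ i : I, #(Iio i) < c) (hcI : c ≤ #I) {J : Set I} (hJ : #J < c) :
    ∃ i, ∀ j ∈ J, j < i := by
  have h1 : #(⋃ j ∈ J, Iic j : Set I) < c := biUnion_lt hc hJ (fun j _ => Iic_lt hc hI j)
  obtain ⟨i, -, hi⟩ := ex_not_mem (S := (univ : Set I)) (by simpa using hcI) h1
  refine ⟨i, fun j hj => ?_⟩
  by_contra hlt
  exact hi (mem_biUnion hj (not_lt.1 hlt))

lemma toType_Iio (c : Cardinal.{u}) (i : c.ord.ToType) : #(Iio i) < c := by
  simpa using mk_Iio_lt i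

/-- `A` stays connected after removing fewer than `lam` points -/
def HCon (R : V → V → Prop) (lam : Cardinal.{u}) (A : Set V) : Prop :=
  ∀ Y : Set V, #Y < lam → ∀ a ∈ A \ Y, ∀ b ∈ A \ Y, Rch R (A \ Y) a b

lemma reflect {R : V → V → Prop} {lam : Cardinal.{u}} (hl : lam.IsRegular) {A : Set V}
    (hA : lam ≤ #A) (h : HCon R lam A) : ∃ A0 : Set V, #A0 = lam ∧ HCon R lam A0 := by
  have key : ∀ B : Set V, ∃ F : Set V, B ⊆ A → #B < lam →
      (#F < lam ∧ F ⊆ A ∧ (∃ x ∈ F, x ∉ B) ∧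
        ∀ a ∈ B, ∀ b ∈ B, Rch R (F \ (B \ {a, b})) a b) := by
    intro B
    by_cases hB : B ⊆ A ∧ #B < lam
    · obtain ⟨hBA, hBl⟩ := hB
      have h1 : ∀ p : V × V, ∃ T : Set V, p ∈ B ×ˢ B →
          (T.Finite ∧ T ⊆ A \ (B \ {p.1, p.2}) ∧ Rch R T p.1 p.2) := by
        rintro ⟨a, b⟩
        by_cases hp : (a, b) ∈ B ×ˢ B
        · have := h (B \ {a, b}) (sub_lt sdiff_subset hBl) a
            ⟨hBA hp.1, fun hx => hx.2 (Or.inl rfl)⟩ b ⟨hBA hp.2, fun hx => hx.2 (Or.inr rfl)⟩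
          obtain ⟨T, hT⟩ := this.finite
          exact ⟨T, fun _ => hT⟩
        · exact ⟨∅, fun h' => absurd h' hp⟩
      choose T hT using h1
      obtain ⟨x, hxA, hxB⟩ := ex_not_mem hA hBl
      refine ⟨{x} ∪ ⋃ p ∈ B ×ˢ B, T p, fun _ _ => ⟨?_, ?_, ⟨x, Or.inl rfl, hxB⟩, ?_⟩⟩
      · exact union_lt hl (fin_lt hl (finite_singleton x))
          (biUnion_lt hl (prod_lt hl hBl hBl) (fun p hp => fin_lt hl (hT p hp).1))
      · intro y hy
        rcases hy with hy | hy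
        · rw [mem_singleton_iff.1 hy]; exact hxA
        · obtain ⟨p, hp, hy⟩ := mem_iUnion₂.1 hy
          exact ((hT p hp).2.1 hy).1
      · intro a ha b hb
        have hp : (a, b) ∈ B ×ˢ B := ⟨ha, hb⟩
        refine Rch.mono ?_ (hT (a, b) hp).2.2
        intro y hy
        exact ⟨Or.inr (mem_biUnion hp hy), ((hT (a, b) hp).2.1 hy).2⟩
    · exact ⟨∅, fun h1 h2 => absurd ⟨h1, h2⟩ hB⟩
  choose F hF using key
  obtain ⟨S, hS⟩ := exists_rec (I := lam.ord.ToType) (W := Set V)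
    (fun i g => F (⋃ j, ⋃ hj : j < i, g j hj))
  have hS' : ∀ i, S i = F (⋃ j ∈ Iio i, S j) := hS
  have hSA : ∀ i, S i ⊆ A ∧ #(S i) < lam := by
    intro i
    induction i using WellFoundedLT.induction with
    | ind i ih =>
      have h1 : (⋃ j ∈ Iio i, S j) ⊆ A := iUnion₂_subset fun j hj => (ih j hj).1
      have h2 : #(⋃ j ∈ Iio i, S j : Set V) < lam :=
        biUnion_lt hl (toType_Iio lam i) fun j hj => (ih j hj).2
      rw [hS' i]
      exact ⟨(hF _ h1 h2).2.1, (hF _ h1 h2).1⟩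
  have hB : ∀ i, (⋃ j ∈ Iio i, S j) ⊆ A ∧ #(⋃ j ∈ Iio i, S j : Set V) < lam := fun i =>
    ⟨iUnion₂_subset fun j _ => (hSA j).1, biUnion_lt hl (toType_Iio lam i) fun j _ => (hSA j).2⟩
  have hcov : ∀ Y : Set V, Y ⊆ (⋃ i, S i) → #Y < lam → ∃ i, Y ⊆ ⋃ j ∈ Iio i, S j := by
    intro Y hY hYl
    have h1 : ∀ y : Y, ∃ i, (y : V) ∈ S i := fun y => mem_iUnion.1 (hY y.2)
    choose g hg using h1
    obtain ⟨i, hi⟩ := bdd hl (toType_Iio lam) (by simp) (J := range g) (mk_range_le.trans_lt hYl)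
    exact ⟨i, fun y hy => mem_biUnion (hi _ ⟨⟨y, hy⟩, rfl⟩) (hg ⟨y, hy⟩)⟩
  refine ⟨⋃ i, S i, le_antisymm ?_ ?_, ?_⟩
  · refine (mk_iUnion_le S).trans ?_
    rw [mk_ord_toType]
    have : ⨆ i, #(S i) ≤ lam := ciSup_le' fun i => (hSA i).2.le
    calc lam * ⨆ i, #(S i) ≤ lam * lam := by gcongr
      _ = lam := mul_eq_self hl.aleph0_le
  · by_contra hlt
    obtain ⟨i, hi⟩ := hcov _ subset_rfl (not_le.1 hlt)
    obtain ⟨x, hx, hx'⟩ := (hF _ (hB i).1 (hB i).2).2.2.1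
    rw [← hS' i] at hx
    exact hx' (hi (mem_iUnion.2 ⟨i, hx⟩))
  · intro Y hY a ha b hb
    obtain ⟨i, hi⟩ := hcov ((Y ∩ ⋃ i, S i) ∪ {a, b})
      (union_subset inter_subset_right (by
        intro y hy
        rcases hy with rfl | rfl
        · exact ha.1
        · exact hb.1))
      (union_lt hl (sub_lt inter_subset_left hY) (fin_lt hl (toFinite _)))
    have := (hF _ (hB i).1 (hB i).2).2.2.2 a (hi (Or.inr (Or.inl rfl))) b (hi (Or.inr (Or.inr rfl)))
    rw [← hS' i] at this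
    refine Rch.mono ?_ this
    intro y hy
    have hy0 : y ∈ ⋃ i, S i := mem_iUnion.2 ⟨i, hy.1⟩
    refine ⟨hy0, fun hyY => hy.2 ⟨hi (Or.inl ⟨hyY, hy0⟩), ?_⟩⟩
    intro hab
    rcases hab with rfl | rfl
    · exact ha.2 hyY
    · exact hb.2 hyY

end Pool.Agent.H817Z.HC
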