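import Pool.Agent.H817Z.HC1

open Cardinal Set

namespace Pool.Agent.H817Z.HC

universe u

variable {V : Type u}

/-- the data produced by the splitting lemma -/
def Split (R : V → V → Prop) (mu : Cardinal.{u}) (η W : Set V) (x y : V) (W0 B : Set V) : Prop :=
  x ∈ η ∧ y ∈ η ∧ mu ≤ #({g | R x g} ∩ W : Set V) ∧ mu ≤ #({g | R y g} ∩ W : Set V) ∧
  #({g | R x g} ∩ (W ∩ W0) : Set V) < mu ∧ #({g | R y g} ∩ (W \ W0) : Set V) < mu ∧ #B < mu ∧
  ∀ a, a ∉ B → #({g | R a g} ∩ (W ∩ W0) : Set V) < mu ∨ #({g | R a g} ∩ (W \ W0) : Set V) < mu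

lemma split {R : V → V → Prop} (hR : ∀ a b, R a b → R b a) {lam mu : Cardinal.{u}}
    (hm : mu.IsRegular) (hlm : lam < mu)
    (hno : ∀ A : Set V, lam ≤ #A → ¬ HCon R lam A)
    {η W : Set V} (hη : #η < mu) (hW : mu ≤ #W)
    (hWη : ∀ g ∈ W, lam ≤ #({z | R g z} ∩ η : Set V)) :
    ∃ x y W0 B, Split R mu η W x y W0 B := by
  classical
  let N : V → Set V := fun z => {g | R z g}
  let adj : V → V → Prop := fun z z' => mu ≤ #(N z ∩ N z' ∩ W : Set V)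
  let Com : V → V → Set V := fun z z' => {a | adj z a ∧ adj a z'}
  let apx : V → V → Prop := fun z z' => lam ≤ #(Com z z')
  let η' : Set V := {z | z ∈ η ∧ mu ≤ #(N z ∩ W : Set V)}
  let bad : Set V := ⋃ z ∈ η \ η', N z ∩ W
  have hbad : #(bad) < mu := biUnion_lt hm (sub_lt sdiff_subset hη) fun z hz => by
    by_contra h
    exact hz.2 ⟨hz.1, not_lt.1 h⟩
  have hgood : ∀ g ∈ W, g ∉ bad → ∀ z ∈ η, R g z → z ∈ η' := by
    intro g hg hgb z hz hgz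
    by_contra h
    exact hgb (mem_biUnion (show z ∈ η \ η' from ⟨hz, h⟩) ⟨hR _ _ hgz, hg⟩)
  have adj_symm : ∀ z z', adj z z' → adj z' z := by
    intro z z' h
    simp only [adj] at h ⊢
    rwa [inter_comm (N z') (N z)]
  -- step 1: the graph `apx` on `η'` is disconnected after removing a tiny set
  have hdis : ∃ Y : Set V, #Y < lam ∧ ∃ z0 ∈ η' \ Y, ∃ z1 ∈ η' \ Y, ¬ Rch apx (η' \ Y) z0 z1 := by
    by_contra hc
    push Not at hc
    let L : Set V := {z | mu ≤ #(N z ∩ W : Set V)}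
    let A : Set V := L ∪ (W \ bad)
    have hWb : mu ≤ #(W \ bad : Set V) := by
      by_contra h
      have := union_lt hm (not_le.1 h) hbad
      refine absurd (le_sub ?_ hW) (not_le.2 this)
      intro g hg
      by_cases hb : g ∈ bad
      · exact Or.inr hb
      · exact Or.inl ⟨hg, hb⟩
    refine hno A (hlm.le.trans (le_sub subset_union_right hWb)) ?_
    intro Y hY
    have hYb : #(Y ∪ bad : Set V) < mu := union_lt hm (hY.trans hlm) hbad
    have hη'A : ∀ z ∈ η' \ Y, z ∈ A \ Y := fun z hz => ⟨Or.inl hz.1.2, hz.2⟩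
    -- an `adj` edge between points of `L \ Y` is a path in `A \ Y`
    have hadj : ∀ z z', z ∈ A \ Y → z' ∈ A \ Y → adj z z' → Rch R (A \ Y) z z' := by
      intro z z' hz hz' h
      obtain ⟨g, hg, hg'⟩ := ex_not_mem h hYb
      have hgA : g ∈ A \ Y := ⟨Or.inr ⟨hg.2, fun h' => hg' (Or.inr h')⟩, fun h' => hg' (Or.inl h')⟩
      exact (Rch.single hz hgA hg.1.1).trans (Rch.single hgA hz' (hR _ _ hg.1.2))
    have hapx : ∀ z z', Rch apx (η' \ Y) z z' → Rch R (A \ Y) z z' := by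
      intro z z' h
      induction h with
      | refl => exact Rch.refl _ _ _
      | @tail p q _ hpq ih =>
        obtain ⟨a, ha, haY⟩ := ex_not_mem hpq.2.2 hY
        have haA : a ∈ A \ Y := by
          refine ⟨Or.inl ?_, haY⟩
          exact le_sub (fun g hg => ⟨hg.1.2, hg.2⟩) ha.1
        exact ih.trans ((hadj p a (hη'A p hpq.1) haA ha.1).trans
          (hadj a q haA (hη'A q hpq.2.1) ha.2))
    have hW' : ∀ g ∈ W \ bad, g ∉ Y → ∃ z ∈ η' \ Y, Rch R (A \ Y) g z ∧ Rch R (A \ Y) z g := by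
      intro g hg hgY
      obtain ⟨z, hz, hzY⟩ := ex_not_mem (hWη g hg.1) hY
      have hz' : z ∈ η' \ Y := ⟨hgood g hg.1 hg.2 z hz.2 hz.1, hzY⟩
      have hgA : g ∈ A \ Y := ⟨Or.inr hg, hgY⟩
      exact ⟨z, hz', Rch.single hgA (hη'A z hz') hz.1, Rch.single (hη'A z hz') hgA (hR _ _ hz.1)⟩
    have hall : ∀ v ∈ A \ Y, ∃ z ∈ η' \ Y, Rch R (A \ Y) v z ∧ Rch R (A \ Y) z v := by
      intro v hv
      rcases hv.1 with hvL | hvW
      · obtain ⟨g, hg, hg'⟩ := ex_not_mem hvL hYb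
        have hgW : g ∈ W \ bad := ⟨hg.2, fun h' => hg' (Or.inr h')⟩
        have hgY : g ∉ Y := fun h' => hg' (Or.inl h')
        have hgA : g ∈ A \ Y := ⟨Or.inr hgW, hgY⟩
        obtain ⟨z, hz, h1, h2⟩ := hW' g hgW hgY
        exact ⟨z, hz, (Rch.single hv hgA hg.1).trans h1,
          h2.trans (Rch.single hgA hv (hR _ _ hg.1))⟩
      · exact hW' v hvW hv.2
    intro a ha b hb
    obtain ⟨za, hza, h1, -⟩ := hall a ha
    obtain ⟨zb, hzb, -, h2⟩ := hall b hb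
    exact h1.trans ((hapx za zb (hc Y hY za hza zb hzb)).trans h2)
  obtain ⟨Y, hY, z0, hz0, z1, hz1, hz01⟩ := hdis
  let η1 : Set V := {z | z ∈ η' \ Y ∧ ¬ Rch apx (η' \ Y) z0 z}
  have hsep : ∀ p ∈ η' \ Y, p ∉ η1 → ∀ q ∈ η1, ¬ apx p q := by
    intro p hp hp1 q hq hpq
    have : Rch apx (η' \ Y) z0 p := by
      by_contra h
      exact hp1 ⟨hp, h⟩
    exact hq.2 (this.trans (Rch.single hp hq.1 hpq))
  have hz0' : z0 ∉ η1 := fun h => h.2 (Rch.refl _ _ _)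
  let W0 : Set V := {g | ∀ z ∈ η1, ¬ R g z}
  let B : Set V := ⋃ p ∈ {p : V × V | p ∈ η ×ˢ η ∧ ¬ apx p.1 p.2}, Com p.1 p.2
  have hB : #B < mu := biUnion_lt hm (sub_lt (fun p hp => hp.1) (prod_lt hm hη hη))
    fun p hp => (not_le.1 hp.2).trans hlm
  -- typical points over a vertex `a`
  have htyp : ∀ a : V, ∃ T : Set V, #T < mu ∧
      ∀ g ∈ W, g ∉ T → R a g → ∀ z ∈ η, R g z → adj z a := by
    intro a
    refine ⟨⋃ z ∈ {z | z ∈ η ∧ ¬ adj z a}, N z ∩ N a ∩ W,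
      biUnion_lt hm (sub_lt (fun z hz => hz.1) hη) fun z hz => not_le.1 hz.2, ?_⟩
    intro g hg hgT hag z hz hgz
    by_contra h
    exact hgT (mem_biUnion (show z ∈ {z | z ∈ η ∧ ¬ adj z a} from ⟨hz, h⟩)
      ⟨⟨hR _ _ hgz, hag⟩, hg⟩)
  refine ⟨z1, z0, W0, B, hz1.1.1, hz0.1.1, hz1.1.2, hz0.1.2, ?_, ?_, hB, ?_⟩
  · have : ({g | R z1 g} ∩ (W ∩ W0) : Set V) = ∅ := by
      refine eq_empty_of_forall_notMem fun g hg => ?_
      exact hg.2.2 z1 ⟨hz1, hz01⟩ (hR _ _ hg.1)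
    rw [this]
    exact fin_lt hm finite_empty
  · choose T hT using htyp
    have hTT : #(⋃ a ∈ η, T a : Set V) < mu := biUnion_lt hm hη fun a _ => (hT a).1
    refine sub_lt ?_ hTT
    intro g hg
    by_contra hgT
    have hgT' : ∀ a ∈ η, g ∉ T a := fun a ha h => hgT (mem_biUnion ha h)
    have : ∃ z ∈ η1, R g z := by
      by_contra h
      push Not at h
      exact hg.2.2 h
    obtain ⟨z, hz, hgz⟩ := this
    refine hsep z0 hz0 hz0' z hz (le_sub ?_ (hWη g hg.2.1))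
    intro a ha
    have h1 := (hT a).2 g hg.2.1 (hgT' a ha.2) (hR _ _ ha.1)
    exact ⟨h1 z0 hz0.1.1 (hR _ _ hg.1), adj_symm _ _ (h1 z hz.1.1.1 hgz)⟩
  · intro a haB
    by_contra hc
    push Not at hc
    obtain ⟨T, hT, hTa⟩ := htyp a
    have hTb : #(T ∪ bad : Set V) < mu := union_lt hm hT hbad
    obtain ⟨g0, hg0, hg0'⟩ := ex_not_mem hc.1 hTb
    obtain ⟨g1, hg1, hg1'⟩ := ex_not_mem hc.2 hTb
    have : ∃ z ∈ η1, R g1 z := by
      by_contra h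
      push Not at h
      exact hg1.2.2 h
    obtain ⟨q, hq, hgq⟩ := this
    obtain ⟨p, hp, hpY⟩ := ex_not_mem (hWη g0 hg0.2.1) hY
    have hp' : p ∈ η' \ Y := ⟨hgood g0 hg0.2.1 (fun h => hg0' (Or.inr h)) p hp.2 hp.1, hpY⟩
    have hp1 : p ∉ η1 := fun h => hg0.2.2 p h hp.1
    have h1 : adj p a := hTa g0 hg0.2.1 (fun h => hg0' (Or.inl h)) hg0.1 p hp.2 hp.1
    have h2 : adj q a := hTa g1 hg1.2.1 (fun h => hg1' (Or.inl h)) hg1.1 q hq.1.1.1 hgq
    refine haB (mem_biUnion (x := (p, q))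
      (show (p, q) ∈ {p : V × V | p ∈ η ×ˢ η ∧ ¬ apx p.1 p.2} from
        ⟨⟨hp.2, hq.1.1.1⟩, hsep p hp' hp1 q hq⟩) ?_)
    exact ⟨h1, adj_symm _ _ h2⟩

end Pool.Agent.H817Z.HC
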