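import Pool.Agent.H817Z.HC2

open Cardinal Set

namespace Pool.Agent.H817Z.HC

universe u

variable {V : Type u}

lemma mainL [LinearOrder V] [WellFoundedLT V] {R : V → V → Prop} (hR : ∀ a b, R a b → R b a)
    {lam mu : Cardinal.{u}} (hm : mu.IsRegular) (hlm : lam < mu)
    (hV : ∀ a : V, #(Iio a) < mu)
    (hno : ∀ A : Set V, lam ≤ #A → ¬ HCon R lam A)
    {η : Set V} (hη : #η < mu) (v0 : V) :
    ∃ (ν : V → V × V) (G : V → Set V), (∀ a, (ν a).1 ∈ insert v0 η ∧ (ν a).2 ∈ insert v0 η) ∧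
      (∀ b, #(G b) < mu) ∧ ∀ a b, a ∉ G b →
        mu ≤ #({g | R a g} ∩ {g | R b g} ∩ {g | lam ≤ #({z | R g z} ∩ η : Set V)} : Set V) →
        ν a ≠ ν b := by
  classical
  let N : V → Set V := fun z => {g | R z g}
  let Wr : Set V := {g | lam ≤ #({z | R g z} ∩ η : Set V)}
  have key : ∀ W : Set V, ∃ (x y : V) (W0 B : Set V), x ∈ insert v0 η ∧ y ∈ insert v0 η ∧
      #B < mu ∧ (W ⊆ Wr → mu ≤ #W → Split R mu η W x y W0 B) := by
    intro W
    by_cases h : W ⊆ Wr ∧ mu ≤ #W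
    · obtain ⟨x, y, W0, B, hs⟩ := split hR hm hlm hno hη h.2 (fun g hg => h.1 hg)
      exact ⟨x, y, W0, B, Or.inr hs.1, Or.inr hs.2.1, hs.2.2.2.2.2.2.1, fun _ _ => hs⟩
    · exact ⟨v0, v0, ∅, ∅, Or.inl rfl, Or.inl rfl, fin_lt hm finite_empty,
        fun h1 h2 => absurd ⟨h1, h2⟩ h⟩
  choose x y W0 B hx hy hB hsp using key
  let ch : V → Set V → Set V := fun a W =>
    if #((N a ∩ Wr) \ (W ∩ W0 W) : Set V) < mu then W ∩ W0 W
    else if #((N a ∩ Wr) \ (W \ W0 W) : Set V) < mu then W \ W0 W else univ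
  have ch_small : ∀ a W, #((N a ∩ Wr) \ ch a W : Set V) < mu := by
    intro a W
    simp only [ch]
    split_ifs with h1 h2
    · exact h1
    · exact h2
    · rw [sdiff_univ]; exact fin_lt hm finite_empty
  have ch_cases : ∀ a W, ch a W = W ∩ W0 W ∨ ch a W = W \ W0 W ∨ ch a W = Set.univ := by
    intro a W
    simp only [ch]
    split_ifs <;> simp
  have ch_ne : ∀ a W, (#((N a ∩ Wr) \ (W ∩ W0 W) : Set V) < mu ∨
      #((N a ∩ Wr) \ (W \ W0 W) : Set V) < mu) → ch a W = W ∩ W0 W ∨ ch a W = W \ W0 W := by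
    intro a W h
    simp only [ch]
    split_ifs with h1 h2
    · exact Or.inl rfl
    · exact Or.inr rfl
    · exact absurd h (not_or.2 ⟨h1, h2⟩)
  obtain ⟨Q, hQ⟩ := exists_rec (I := V) (W := Set V)
    (fun a f => Wr ∩ ⋂ b, ⋂ hb : b < a, ch a (f b hb))
  have hQ' : ∀ a, Q a = Wr ∩ ⋂ b ∈ Iio a, ch a (Q b) := hQ
  have hQW : ∀ a, Q a ⊆ Wr := fun a => by rw [hQ' a]; exact inter_subset_left
  have hQch : ∀ a b, b < a → Q a ⊆ ch a (Q b) := fun a b hb => by
    rw [hQ' a]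
    intro g hg
    exact mem_iInter₂.1 hg.2 b hb
  have hcover : ∀ a b, ((N a ∩ Wr) \ Q b : Set V) ⊆ ⋃ b' ∈ Iio b, (N a ∩ Wr) \ ch b (Q b') := by
    intro a b g hg
    by_contra h
    apply hg.2
    rw [hQ' b]
    refine ⟨hg.1.2, mem_iInter₂.2 fun b' hb' => ?_⟩
    by_contra h'
    exact h (mem_biUnion hb' ⟨hg.1, h'⟩)
  have h1 : ∀ a, #((N a ∩ Wr) \ Q a : Set V) < mu := fun a =>
    sub_lt (hcover a a) (biUnion_lt hm (hV a) fun b _ => ch_small a (Q b))
  have hsub0 : ∀ a W, #((N a ∩ Wr) \ W : Set V) < mu → #(N a ∩ (W \ W0 W) : Set V) < mu →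
      #((N a ∩ Wr) \ (W ∩ W0 W) : Set V) < mu := by
    intro a W h2 h3
    refine sub_lt ?_ (union_lt hm h2 h3)
    intro g hg
    by_cases hgW : g ∈ W
    · exact Or.inr ⟨hg.1.1, hgW, fun h => hg.2 ⟨hgW, h⟩⟩
    · exact Or.inl ⟨hg.1, hgW⟩
  have hsub1 : ∀ a W, #((N a ∩ Wr) \ W : Set V) < mu → #(N a ∩ (W ∩ W0 W) : Set V) < mu →
      #((N a ∩ Wr) \ (W \ W0 W) : Set V) < mu := by
    intro a W h2 h3
    refine sub_lt ?_ (union_lt hm h2 h3)
    intro g hg
    by_cases hgW : g ∈ W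
    · refine Or.inr ⟨hg.1.1, hgW, ?_⟩
      by_contra h
      exact hg.2 ⟨hgW, h⟩
    · exact Or.inl ⟨hg.1, hgW⟩
  have h2 : ∀ b a, (∀ b' < b, a ∉ B (Q b')) → mu ≤ #(N a ∩ Q b : Set V) →
      #((N a ∩ Wr) \ Q b : Set V) < mu := by
    intro b
    induction b using WellFoundedLT.induction with
    | ind b ih =>
      intro a ha hl
      refine sub_lt (hcover a b) (biUnion_lt hm (hV b) fun b' hb' => ?_)
      have hb'' : b' < b := hb'
      have hQb := hQch b b' hb''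
      rcases ch_cases b (Q b') with h | h | h
      · rw [h] at hQb ⊢
        have hl' : mu ≤ #(N a ∩ (Q b' ∩ W0 (Q b')) : Set V) :=
          le_sub (inter_subset_inter_right _ hQb) hl
        have hl2 : mu ≤ #(N a ∩ Q b' : Set V) :=
          le_sub (inter_subset_inter_right _ inter_subset_left) hl'
        have hs := hsp (Q b') (hQW b') (le_sub inter_subset_right hl2)
        have h3 := ih b' hb'' a (fun c hc => ha c (hc.trans hb'')) hl2
        rcases hs.2.2.2.2.2.2.2 a (ha b' hb'') with h4 | h4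
        · exact absurd hl' (not_le.2 h4)
        · exact hsub0 a _ h3 h4
      · rw [h] at hQb ⊢
        have hl' : mu ≤ #(N a ∩ (Q b' \ W0 (Q b')) : Set V) :=
          le_sub (inter_subset_inter_right _ hQb) hl
        have hl2 : mu ≤ #(N a ∩ Q b' : Set V) :=
          le_sub (inter_subset_inter_right _ sdiff_subset) hl'
        have hs := hsp (Q b') (hQW b') (le_sub inter_subset_right hl2)
        have h3 := ih b' hb'' a (fun c hc => ha c (hc.trans hb'')) hl2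
        rcases hs.2.2.2.2.2.2.2 a (ha b' hb'') with h4 | h4
        · exact hsub1 a _ h3 h4
        · exact absurd hl' (not_le.2 h4)
      · rw [h, sdiff_univ]; exact fin_lt hm finite_empty
  refine ⟨fun a => (x (Q a), y (Q a)), fun b => Iic b ∪ ⋃ b' ∈ Iic b, B (Q b'),
    fun a => ⟨hx _, hy _⟩,
    fun b => union_lt hm (Iic_lt hm hV b) (biUnion_lt hm (Iic_lt hm hV b) fun b' _ => hB _), ?_⟩
  intro a b hab hl heq
  have hba : b < a := by
    by_contra h
    exact hab (Or.inl (not_lt.1 h))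
  have haB : ∀ b' ≤ b, a ∉ B (Q b') := fun b' hb' h => hab (Or.inr (mem_biUnion hb' h))
  have hl1 : mu ≤ #(N a ∩ Q b : Set V) := by
    by_contra h
    refine absurd hl (not_le.2 (sub_lt ?_ (union_lt hm (not_le.1 h) (h1 b))))
    intro g hg
    by_cases hgQ : g ∈ Q b
    · exact Or.inl ⟨hg.1.1, hgQ⟩
    · exact Or.inr ⟨⟨hg.1.2, hg.2⟩, hgQ⟩
  have h3 := h2 b a (fun b' hb' => haB b' hb'.le) hl1
  have hsb := hsp (Q b) (hQW b) (le_sub inter_subset_right hl1)
  have hQa : mu ≤ #(Q a) := by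
    by_contra h
    refine absurd hl (not_le.2 (sub_lt ?_ (union_lt hm (not_le.1 h) (h1 a))))
    intro g hg
    by_cases hgQ : g ∈ Q a
    · exact Or.inl hgQ
    · exact Or.inr ⟨⟨hg.1.1, hg.2⟩, hgQ⟩
  have hsa := hsp (Q a) (hQW a) hQa
  have hch : ch a (Q b) = Q b ∩ W0 (Q b) ∨ ch a (Q b) = Q b \ W0 (Q b) := by
    apply ch_ne
    rcases hsb.2.2.2.2.2.2.2 a (haB b le_rfl) with h4 | h4
    · exact Or.inr (hsub1 a _ h3 h4)
    · exact Or.inl (hsub0 a _ h3 h4)
  have hxe : x (Q a) = x (Q b) := congrArg Prod.fst heq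
  have hye : y (Q a) = y (Q b) := congrArg Prod.snd heq
  have hQab := hQch a b hba
  rcases hch with h | h
  · rw [h] at hQab
    have h5 := hsa.2.2.1
    rw [hxe] at h5
    exact absurd (le_sub (inter_subset_inter_right _ hQab) h5) (not_le.2 hsb.2.2.2.2.1)
  · rw [h] at hQab
    have h5 := hsa.2.2.2.1
    rw [hye] at h5
    exact absurd (le_sub (inter_subset_inter_right _ hQab) h5) (not_le.2 hsb.2.2.2.2.2.1)

end Pool.Agent.H817Z.HC
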