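import Pool.Agent.H817Z.HC3

open Cardinal Set

namespace Pool.Agent.H817Z.HC

universe u

variable {V : Type u}

lemma free_set {mu : Cardinal.{u}} (hm : mu.IsRegular) {X : Set V} (hX : mu ≤ #X)
    {G : V → Set V} (hG : ∀ b, #(G b) < mu) :
    ∃ X1 : Set V, X1 ⊆ X ∧ mu ≤ #X1 ∧ ∀ a ∈ X1, ∀ b ∈ X1, a ≠ b → a ∉ G b ∨ b ∉ G a := by
  obtain ⟨m, hm1⟩ := zorn_subset
    {S : Set V | S ⊆ X ∧ ∀ a ∈ S, ∀ b ∈ S, a ≠ b → a ∉ G b ∨ b ∉ G a} (by
      intro c hc hch
      refine ⟨⋃₀ c, ⟨sUnion_subset fun S hS => (hc hS).1, ?_⟩, fun S hS => subset_sUnion_of_mem hS⟩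
      rintro a ⟨S, hS, ha⟩ b ⟨T, hT, hb⟩ hab
      rcases hch.total hS hT with h | h
      · exact (hc hT).2 a (h ha) b hb hab
      · exact (hc hS).2 a ha b (h hb) hab)
  refine ⟨m, hm1.prop.1, ?_, hm1.prop.2⟩
  by_contra h
  have h1 : #(m ∪ ⋃ b ∈ m, G b : Set V) < mu :=
    union_lt hm (not_le.1 h) (biUnion_lt hm (not_le.1 h) fun b _ => hG b)
  obtain ⟨a, haX, ha⟩ := ex_not_mem hX h1
  have h2 : insert a m ∈ {S : Set V | S ⊆ X ∧ ∀ a ∈ S, ∀ b ∈ S, a ≠ b → a ∉ G b ∨ b ∉ G a} := by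
    refine ⟨insert_subset haX hm1.prop.1, ?_⟩
    intro p hp q hq hpq
    rcases hp with rfl | hp
    · rcases hq with rfl | hq
      · exact absurd rfl hpq
      · exact Or.inl fun h' => ha (Or.inr (mem_biUnion hq h'))
    · rcases hq with rfl | hq
      · exact Or.inr fun h' => ha (Or.inr (mem_biUnion hp h'))
      · exact hm1.prop.2 p hp q hq hpq
  have h3 := hm1.le_of_ge h2 (subset_insert a m)
  exact ha (Or.inl (h3 (mem_insert a m)))

lemma lemA [LinearOrder V] [WellFoundedLT V] {C : Type u} {R : C → V → V → Prop}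
    (hR : ∀ k a b, R k a b → R k b a)
    {lam mu : Cardinal.{u}} (hl : lam.IsRegular) (hm : mu.IsRegular) (hlm : lam < mu)
    (hC : #C < lam) (hV : ∀ a : V, #(Iio a) < mu) (hV' : mu ≤ #V)
    (hno : ∀ k, ∀ A : Set V, lam ≤ #A → ¬ HCon (R k) lam A)
    {η : Set V} (hη : #η ≤ lam) :
    ∃ X0 Z : Set V, #X0 = lam ∧ #Z < mu ∧ ∀ g, g ∉ Z → ∀ k,
      lam ≤ #({z | R k g z} ∩ η : Set V) → #(X0 ∩ {z | R k g z} : Set V) < lam := by
  classical
  have hne : Nonempty V := by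
    rw [← mk_ne_zero_iff]
    exact (hm.pos.trans_le hV').ne'
  obtain ⟨v0⟩ := hne
  have h0 := fun k => mainL (hR k) hm hlm hV (hno k) (hη.trans_lt hlm) v0
  choose ν G hν hG hνG using h0
  have hη1 : #(insert v0 η : Set V) ≤ #(lam.ord.ToType) := by
    rw [mk_ord_toType]
    refine mk_insert_le.trans ?_
    calc #η + 1 ≤ lam + lam := add_le_add hη (one_le_aleph0.trans hl.aleph0_le)
      _ = lam := add_eq_self hl.aleph0_le
  obtain ⟨e⟩ := (Cardinal.le_def _ _).1 hη1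
  have hb : ∀ a : V, ∃ i : lam.ord.ToType, ∀ k, e ⟨(ν k a).1, (hν k a).1⟩ < i ∧
      e ⟨(ν k a).2, (hν k a).2⟩ < i := by
    intro a
    obtain ⟨i, hi⟩ := bdd hl (toType_Iio lam) (by simp)
      (J := range (fun k => e ⟨(ν k a).1, (hν k a).1⟩) ∪ range (fun k => e ⟨(ν k a).2, (hν k a).2⟩))
      (union_lt hl (mk_range_le.trans_lt hC) (mk_range_le.trans_lt hC))
    exact ⟨i, fun k => ⟨hi _ (Or.inl ⟨k, rfl⟩), hi _ (Or.inr ⟨k, rfl⟩)⟩⟩
  choose φ hφ using hb
  have hfib : ∃ i, mu ≤ #({a | φ a = i} : Set V) := by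
    by_contra h
    push Not at h
    have h1 : #(⋃ i ∈ (univ : Set lam.ord.ToType), {a | φ a = i} : Set V) < mu :=
      biUnion_lt hm (by simpa using hlm) fun i _ => h i
    obtain ⟨a, -, ha⟩ := ex_not_mem (S := (univ : Set V)) (by simpa using hV') h1
    exact ha (mem_biUnion (mem_univ (φ a)) rfl)
  obtain ⟨i, hi⟩ := hfib
  have hCu : #(univ : Set C) < mu := by simpa using hC.trans hlm
  obtain ⟨X1, hX1, hX1l, hfree⟩ := free_set hm hi (G := fun b => ⋃ k ∈ (univ : Set C), G k b)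
    (fun b => biUnion_lt hm hCu fun k _ => hG k b)
  obtain ⟨X0, hX0, hX0l⟩ := le_mk_iff_exists_subset.1 (hlm.le.trans hX1l)
  let Wr : C → Set V := fun k => {g | lam ≤ #({z | R k g z} ∩ η : Set V)}
  let T : C → V × V → Set V := fun k p => {g | R k p.1 g} ∩ {g | R k p.2 g} ∩ Wr k
  have hX0m : #X0 < mu := hX0l ▸ hlm
  refine ⟨X0, ⋃ k ∈ (univ : Set C), ⋃ p ∈ {p : V × V | p ∈ X0 ×ˢ X0 ∧ #(T k p) < mu}, T k p,
    hX0l, biUnion_lt hm hCu fun k _ => biUnion_lt hm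
      (sub_lt (fun p hp => hp.1) (prod_lt hm hX0m hX0m)) fun p hp => hp.2, ?_⟩
  intro g hg k hk
  have hlarge : ∀ a ∈ X0 ∩ {z | R k g z}, ∀ b ∈ X0 ∩ {z | R k g z}, mu ≤ #(T k (a, b)) := by
    intro a ha b hb
    by_contra h
    refine hg (mem_biUnion (mem_univ k) (mem_biUnion (x := (a, b))
      (show (a, b) ∈ {p : V × V | p ∈ X0 ×ˢ X0 ∧ #(T k p) < mu} from
        ⟨⟨ha.1, hb.1⟩, not_le.1 h⟩) ?_))
    exact ⟨⟨hR _ _ _ ha.2, hR _ _ _ hb.2⟩, hk⟩
  let f : (X0 ∩ {z | R k g z} : Set V) → (Iio i ×ˢ Iio i : Set (lam.ord.ToType × lam.ord.ToType)) :=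
    fun a => ⟨(e ⟨(ν k a).1, (hν k a).1⟩, e ⟨(ν k a).2, (hν k a).2⟩), by
      have h1 : φ a = i := hX1 (hX0 a.2.1)
      have h2 := hφ a k
      rw [h1] at h2
      exact h2⟩
  have hf : Function.Injective f := by
    intro a b hab
    have h1 := congrArg (fun p => p.1.1) hab
    have h2 := congrArg (fun p => p.1.2) hab
    simp only [f] at h1 h2
    have h3 : ν k a = ν k b := Prod.ext (congrArg Subtype.val (e.injective h1))
      (congrArg Subtype.val (e.injective h2))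
    by_contra hne
    have hne' : (a : V) ≠ b := fun h => hne (Subtype.ext h)
    rcases hfree a (hX0 a.2.1) b (hX0 b.2.1) hne' with h | h
    · exact hνG k a b (fun h' => h (mem_biUnion (mem_univ k) h')) (hlarge a a.2 b b.2) h3
    · exact hνG k b a (fun h' => h (mem_biUnion (mem_univ k) h')) (hlarge b b.2 a a.2) h3.symm
  exact (mk_le_of_injective hf).trans_lt (prod_lt hl (toType_Iio lam i) (toType_Iio lam i))

theorem core {C : Type u} {lam : Cardinal.{u}} (hl : lam.IsRegular) (hC : #C < lam)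
    (hV : #V = Order.succ lam) (c : V → V → C) (hc : ∀ a b, c a b = c b a) :
    ∃ (k : C) (A : Set V), #A = lam ∧ HCon (fun a b => a ≠ b ∧ c a b = k) lam A := by
  classical
  by_contra hcon
  push Not at hcon
  have hno : ∀ k, ∀ A : Set V, lam ≤ #A → ¬ HCon (fun a b => a ≠ b ∧ c a b = k) lam A := by
    intro k A hA h
    obtain ⟨A0, h1, h2⟩ := reflect hl hA h
    exact hcon k A0 h1 h2
  have hm : (Order.succ lam).IsRegular := isRegular_succ hl.aleph0_le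
  have hlm : lam < Order.succ lam := Order.lt_succ lam
  obtain ⟨_, _, hord⟩ := exists_ord_eq_type_lt V
  have hIio : ∀ a : V, #(Iio a) < Order.succ lam := fun a => hV ▸ mk_Iio_lt a hord
  have key : ∀ η : Set V, ∃ X0 Z : Set V, #X0 = lam ∧ #Z < Order.succ lam ∧ (#η ≤ lam →
      ∀ g, g ∉ Z → ∀ k, lam ≤ #({z | g ≠ z ∧ c g z = k} ∩ η : Set V) →
        #(X0 ∩ {z | g ≠ z ∧ c g z = k} : Set V) < lam) := by
    intro η
    by_cases hη : #η ≤ lam
    · obtain ⟨X0, Z, h1, h2, h3⟩ := lemA (R := fun k a b => a ≠ b ∧ c a b = k)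
        (fun k a b h => ⟨h.1.symm, (hc b a).trans h.2⟩) hl hm hlm hC hIio hV.ge hno hη
      exact ⟨X0, Z, h1, h2, fun _ => h3⟩
    · obtain ⟨X0, -, h1⟩ := le_mk_iff_exists_subset.1
        (show lam ≤ #(univ : Set V) by simpa [hV] using hlm.le)
      exact ⟨X0, ∅, h1, fin_lt hm finite_empty, fun h => absurd h hη⟩
  choose X Z hX hZ hXZ using key
  obtain ⟨S, hS⟩ := exists_rec (I := lam.ord.ToType) (W := Set V)
    (fun i g => X (⋃ j, ⋃ hj : j < i, g j hj))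
  have hS' : ∀ i, S i = X (⋃ j ∈ Iio i, S j) := hS
  have hSl : ∀ i, #(S i) < Order.succ lam := fun i => by rw [hS' i, hX]; exact hlm
  have hη : ∀ i, #(⋃ j ∈ Iio i, S j : Set V) ≤ lam := fun i =>
    Order.lt_succ_iff.1 (biUnion_lt hm ((toType_Iio lam i).trans hlm) fun j _ => hSl j)
  have h1 : #(⋃ i ∈ (univ : Set lam.ord.ToType), (S i ∪ Z (⋃ j ∈ Iio i, S j)) : Set V) <
      Order.succ lam :=
    biUnion_lt hm (by simp) fun i _ => union_lt hm (hSl i) (hZ _)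
  obtain ⟨g, -, hg⟩ := ex_not_mem (S := (univ : Set V)) (by simp [hV]) h1
  have hgS : ∀ i, g ∉ S i := fun i h => hg (mem_biUnion (mem_univ i) (Or.inl h))
  have hgZ : ∀ i, g ∉ Z (⋃ j ∈ Iio i, S j) := fun i h => hg (mem_biUnion (mem_univ i) (Or.inr h))
  have h2 : ∀ i, ∃ k, lam ≤ #(S i ∩ {z | g ≠ z ∧ c g z = k} : Set V) := by
    intro i
    by_contra h
    push Not at h
    have h3 : #(⋃ k ∈ (univ : Set C), S i ∩ {z | g ≠ z ∧ c g z = k} : Set V) < lam :=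
      biUnion_lt hl (by simpa using hC) fun k _ => h k
    have h4 : lam ≤ #(S i) := by rw [hS' i, hX]
    obtain ⟨z, hz, hz'⟩ := ex_not_mem h4 h3
    exact hz' (mem_biUnion (mem_univ (c g z)) ⟨hz, fun h' => hgS i (h' ▸ hz), rfl⟩)
  choose κ hκ using h2
  have h5 : ∀ i j, j < i → κ j ≠ κ i := by
    intro i j hji heq
    have h6 := hXZ _ (hη i) g (hgZ i) (κ i) (by
      refine le_sub ?_ (hκ j)
      intro z hz
      exact ⟨heq ▸ hz.2, mem_biUnion hji hz.1⟩)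
    rw [← hS' i] at h6
    exact absurd (hκ i) (not_le.2 h6)
  have h7 : Function.Injective κ := by
    intro i j hij
    rcases lt_trichotomy i j with h | h | h
    · exact absurd hij (h5 j i h)
    · exact h
    · exact absurd hij.symm (h5 i j h)
  have h8 := mk_le_of_injective h7
  rw [mk_ord_toType] at h8
  exact absurd h8 (not_le.2 hC)

end Pool.Agent.H817Z.HC
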