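import Pool.Agent.H817Z.HC4

open Cardinal Set

namespace Pool.Agent.H817Z.HC

universe u

theorem final (lam : Cardinal.{u}) (hl : lam.IsRegular) (V C : Type u)
    (hV : Cardinal.mk V = Order.succ lam) (hC : Cardinal.mk C < lam) (c : Sym2 V → C) :
    ∃ (k : C) (A : Set V), Cardinal.mk A = lam ∧ ∀ Y : Set V, Y ⊆ A →
      Cardinal.mk Y < Cardinal.mk A →
      ((SimpleGraph.fromEdgeSet {e | c e = k}).induce (A \ Y)).Connected := by
  obtain ⟨k, A, hA, h⟩ := core hl hC hV (fun a b => c s(a, b)) (fun a b => by rw [Sym2.eq_swap])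
  refine ⟨k, A, hA, fun Y _ hY => ?_⟩
  rw [hA] at hY
  obtain ⟨x, hx, hxY⟩ := ex_not_mem hA.ge hY
  have hne : Nonempty (A \ Y : Set V) := ⟨⟨x, hx, hxY⟩⟩
  refine ⟨?_⟩
  rintro ⟨a, ha⟩ ⟨b, hb⟩
  have h1 := h Y hY a ha b hb
  induction h1 with
  | refl => exact SimpleGraph.Reachable.refl _
  | @tail p q _ hpq ih =>
    refine (ih hpq.1).trans (SimpleGraph.Adj.reachable ?_)
    simp only [SimpleGraph.comap_adj, Function.Embedding.subtype_apply, SimpleGraph.fromEdgeSet_adj,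
      mem_setOf_eq]
    exact ⟨hpq.2.2.2, hpq.2.2.1⟩

end Pool.Agent.H817Z.HC
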